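import Mathlib
import Pool.Agent.Helper53.Motivic.Lemmas

/-!
# A few top degrees for the products with projective spaces give all weights `n ≥ dim X`

The definitions are in `Pool/Agent/Helper53/Motivic/Defs.lean`.

Proof. For `n ≥ dim X` the group `Hⁱ(X, ℤ(n))` is a summand of `Hᵉ(X × ℙ^N, ℤ(dim X + N))`, `N ≥ n - dim X`, where
`2 (dim X + N) - e = 2 n - i`. For `N` large this degree `e` is near the top.
-/

set_option autoImplicit false

namespace Pool.Agent.Results.MP_c71c7a_nt.ProjectiveProducts

open Pool.Agent.Helper53.Motivic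

universe u v

/-- For a regular projective arithmetic scheme `X`: finite generation of the top-weight etale motivic
cohomology of the products `X × ℙ^N` in the degrees `i` between `2 d - φ d` and `2 d`, `d = dim X + N`, where `φ` tends
to infinity as slowly as we like, is equivalent to finite generation and the Beilinson-Soule
vanishing for `X` in ALL weights `n ≥ dim X`. -/
theorem result (T : Theory.{u, v}) (hT : T.Standard) (φ : ℕ → ℕ) (hφ : ∀ m, ∃ d₀, ∀ d ≥ d₀, m ≤ φ d) (X : T.Sch) :
    (∀ N, T.FGNearTop φ (T.proj X N)) ↔ ∀ n : ℕ, T.dim X ≤ n → T.Weight X n := by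
  constructor
  · intro h
    have key : ∀ n : ℕ, T.dim X ≤ n → ∀ i : ℤ, i ≤ 2 * (n : ℤ) → Module.Finite ℤ (T.H X n i) := by
      intro n hn i hi
      obtain ⟨d₀, hd₀⟩ := hφ (2 * (n : ℤ) - i).toNat
      set N := max d₀ (n + (2 * (n : ℤ) - i).toNat) with hN
      have hN1 : d₀ ≤ N := le_max_left _ _
      have hN2 : n + (2 * (n : ℤ) - i).toNat ≤ N := le_max_right _ _
      have hφN := hd₀ (T.dim X + N) (by omega)
      set e : ℤ := 2 * ((T.dim X : ℤ) + N) - (2 * (n : ℤ) - i) with he
      have h1 : Module.Finite ℤ (T.H (T.proj X N) (T.dim X + N) e) := by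
        have h1 := h N e
        rw [hT.dim_proj] at h1
        exact (finite_iff T _ _ _).1 (h1 (by omega) (by push_cast; omega) (by push_cast; omega))
      obtain ⟨E⟩ := equiv_of_bundle T (hT.bundle X N (T.dim X + N) e rfl)
      have h2 : Module.Finite ℤ (T.Sum X (T.dim X + N) 0 (N + 1) e) := Module.Finite.equiv E.symm.toIntLinearEquiv
      have h3 : T.dim X + N - n < N + 1 := by omega
      have h4 : Module.Finite ℤ (T.H X (T.dim X + N - (T.dim X + N - n + 0)) (deg e (T.dim X + N - n + 0))) := by
        have : Function.Surjective (Pi.evalAddMonoidHom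
            (fun k : Fin (N + 1) => T.H X (T.dim X + N - (k + 0)) (deg e (k + 0)))
            ⟨T.dim X + N - n, h3⟩).toIntLinearMap :=
          Function.surjective_eval _
        exact Module.Finite.of_surjective _ this
      have h5 : T.dim X + N - (T.dim X + N - n + 0) = n := by omega
      have h6 : deg e (T.dim X + N - n + 0) = i := by
        rw [deg_def, he, add_zero, Nat.cast_sub (by omega)]; push_cast; ring
      rw [h5, h6] at h4
      exact h4
    intro n hn
    refine ⟨fun i hi => ?_, fun i _ hi => (finite_iff T _ _ _).2 (key n hn i hi)⟩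
    have := key n hn i (by omega)
    exact subsingleton_of_divisible (hT.rational X n i hn hi)
  · intro h N i _ _ hi
    rw [finite_iff]
    rw [hT.dim_proj] at hi ⊢
    obtain ⟨E⟩ := equiv_of_bundle T (hT.bundle X N (T.dim X + N) i rfl)
    have h1 : ∀ k : Fin (N + 1), Module.Finite ℤ (T.H X (T.dim X + N - (k + 0)) (deg i (k + 0))) := by
      intro k
      have hk := k.2
      rw [deg_def, add_zero]
      obtain ⟨h2, h3⟩ := h (T.dim X + N - k) (by omega)
      rcases lt_or_ge (i - 2 * ((k : ℕ) : ℤ)) 0 with h0 | h0
      · have := h2 _ h0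
        exact Module.Finite.of_finite
      · refine (finite_iff T _ _ _).1 (h3 _ h0 ?_)
        rw [Nat.cast_sub (by omega)]; push_cast at hi ⊢; omega
    exact Module.Finite.equiv E.toIntLinearEquiv

end Pool.Agent.Results.MP_c71c7a_nt.ProjectiveProducts
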