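import Mathlib
import Pool.Agent.Helper53.Motivic.Lemmas

/-!
# Rational arithmetic schemes and a few top degrees give all higher weights

The definitions are in `Pool/Agent/Helper53/Motivic/Defs.lean`.

Proof. Let `Z` be embedded in `P = ℙ^M_ℤ`, `n > dim Z` and `j = 2 n - i ≥ 0`. The group `Hⁱ(Z, ℤ(n))` is a
summand of the second term of the exact sequence of the blow-up `Y` of `P` along `Z` in the weight
`d = dim P`, in the degree `2 d - j` of the third term: the number `2 (weight) - (degree)` is the same
for all terms. For `M` large, `0 ≤ 2 d - j - 1` and `j + 1 ≤ φ d`.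
-/

set_option autoImplicit false

namespace Pool.Agent.Results.MP_c71c7a_nt.RationalSchemes

open Pool.Agent.Helper53.Motivic

universe u v

/-- Let `C` be a class of regular projective arithmetic schemes which contains `Spec ℤ`, for example all of
them. Finite generation of the top-weight etale motivic cohomology of the projective spaces over `ℤ` and
of their blow-ups along one regular centre from `C`, in the degrees `i` between `2 d - φ d` and `2 d` only, where `φ`
tends to infinity as slowly as we like, is equivalent to finite generation and the Beilinson-Soule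
vanishing for all schemes in `C` in ALL weights greater than the dimension. -/
theorem result (T : Theory.{u, v}) (hT : T.Standard) (C : Set T.Sch) (hC : T.base ∈ C)
    (φ : ℕ → ℕ) (hφ : ∀ m, ∃ d₀, ∀ d ≥ d₀, m ≤ φ d) :
    (∀ X, T.IsRational C X → T.FGNearTop φ X) ↔ ∀ Z ∈ C, T.HigherWeights Z := by
  have hsp : ∀ M, T.dim (T.space M) = M + 1 := fun M => by
    rw [Theory.space, hT.dim_proj, hT.dim_base, add_comm]
  constructor
  · intro h Z hZC
    -- finite generation in all degrees
    have key : ∀ n : ℕ, T.dim Z < n → ∀ i : ℤ, i ≤ 2 * (n : ℤ) → Module.Finite ℤ (T.H Z n i) := by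
      intro n hn i hi
      obtain ⟨M₀, hM₀⟩ := hT.exists_blowup Z
      obtain ⟨d₀, hd₀⟩ := hφ (2 * (n : ℤ) - i + 1).toNat
      set M := max (max M₀ d₀) (n + (2 * (n : ℤ) - i + 1).toNat) with hM
      have hM1 : M₀ ≤ M := (le_max_left _ _).trans (le_max_left _ _)
      have hM2 : d₀ ≤ M := (le_max_right _ _).trans (le_max_left _ _)
      have hM3 : n + (2 * (n : ℤ) - i + 1).toNat ≤ M := le_max_right _ _
      obtain ⟨Y, hY⟩ := hM₀ M hM1
      have hφM := hd₀ (M + 1) (by omega)
      -- the degree on the blow-up
      set e : ℤ := 2 * ((M : ℤ) + 1) - (2 * (n : ℤ) - i) with he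
      have hYf : Module.Finite ℤ (T.H Y (M + 1) e) := by
        have h1 := h Y (Or.inr ⟨M, Z, hZC, hY⟩) e
        rw [hT.dim_blowup hY] at h1
        exact (finite_iff T _ _ _).1 (h1 (by omega) (by push_cast; omega) (by push_cast; omega))
      have hPf : Module.Finite ℤ (T.H (T.space M) (M + 1) (e - 1)) := by
        have h1 := h (T.space M) (Or.inl ⟨M, rfl⟩) (e - 1)
        rw [hsp M] at h1
        exact (finite_iff T _ _ _).1 (h1 (by omega) (by push_cast; omega) (by push_cast; omega))
      obtain ⟨δ, f, g, h1, -⟩ := exact_of_blowup T (hT.blowup hY e)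
      have h2 := finite_of_exact δ f h1
      -- the summand
      have h3 : M - n < M - T.dim Z := by omega
      have h4 : Module.Finite ℤ (T.H Z (M + 1 - (M - n + 1)) (deg e (M - n + 1))) := by
        have : Function.Surjective (Pi.evalAddMonoidHom
            (fun k : Fin (M - T.dim Z) => T.H Z (M + 1 - (k + 1)) (deg e (k + 1))) ⟨M - n, h3⟩).toIntLinearMap :=
          Function.surjective_eval _
        exact Module.Finite.of_surjective _ this
      have h5 : M + 1 - (M - n + 1) = n := by omega
      have h6 : deg e (M - n + 1) = i := by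
        rw [deg_def, he, Nat.cast_add, Nat.cast_sub (by omega)]; push_cast; ring
      rw [h5, h6] at h4
      exact h4
    intro n hn
    refine ⟨fun i hi => ?_, fun i _ hi => (finite_iff T _ _ _).2 (key n hn i hi)⟩
    have := key n hn i (by omega)
    exact subsingleton_of_divisible (hT.rational Z n i hn.le hi)
  · intro h
    have hfin : ∀ Z ∈ C, ∀ n : ℕ, T.dim Z < n → ∀ i : ℤ, i ≤ 2 * (n : ℤ) → Module.Finite ℤ (T.H Z n i) := by
      intro Z hZ n hn i hi
      rcases lt_or_ge i 0 with h0 | h0
      · have := (h Z hZ n hn).1 i h0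
        exact Module.Finite.of_finite
      · exact (finite_iff T _ _ _).1 ((h Z hZ n hn).2 i h0 hi)
    have hspace : ∀ (M : ℕ) (i : ℤ), i ≤ 2 * ((M : ℤ) + 1) → Module.Finite ℤ (T.H (T.space M) (M + 1) i) := by
      intro M i hi
      obtain ⟨E⟩ := equiv_of_bundle T (hT.bundle T.base M (M + 1) i (by rw [hT.dim_base, add_comm]))
      have h1 : ∀ k : Fin (M + 1), Module.Finite ℤ (T.H T.base (M + 1 - (k + 0)) (deg i (k + 0))) := by
        intro k
        have hk := k.2
        rw [deg_def, add_zero]
        rcases Nat.lt_or_ge 1 (M + 1 - k) with h2 | h2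
        · apply hfin _ hC
          · rw [hT.dim_base]; omega
          · rw [Nat.cast_sub (by omega)]; push_cast; omega
        · have h3 : M + 1 - (k : ℕ) = 1 := by omega
          rw [h3]
          exact (finite_iff T _ _ _).1 (hT.integers _ (by omega))
      exact Module.Finite.equiv E.toIntLinearEquiv
    intro X hX i _ _ hi
    rw [finite_iff]
    rcases hX with ⟨M, rfl⟩ | ⟨M, Z, hZC, hY⟩
    · rw [hsp M] at hi ⊢
      exact hspace M i (by push_cast at hi; exact hi)
    · rw [hT.dim_blowup hY] at hi ⊢
      push_cast at hi
      obtain ⟨δ, f, g, -, h2⟩ := exact_of_blowup T (hT.blowup hY i)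
      have h3 := hspace M i hi
      have h4 : ∀ k : Fin (M - T.dim Z), Module.Finite ℤ (T.H Z (M + 1 - (k + 1)) (deg i (k + 1))) := by
        intro k
        have hk := k.2
        apply hfin Z hZC
        · omega
        · rw [deg_def, Nat.cast_sub (by omega)]; push_cast; omega
      exact finite_of_exact f g h2

end Pool.Agent.Results.MP_c71c7a_nt.RationalSchemes
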